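import Pool.Agent.V11196.HPar.SL

/-!
# A semisimple Hopf algebra `H` whose partial Hopf algebra `H_par` is not semisimple

For every field `k` of characteristic two, `H = k^G` with `G = PSL(2,5)` (the alternating group
`A₅`) is a commutative semisimple Hopf algebra of dimension 60, and `H_par` is not semisimple.
-/

namespace Pool.Agent.Results.MP_57c94c_al.ParNotSemisimple

open V11196.HPar

/-- Over every field of characteristic two there is a finite-dimensional commutative semisimple
Hopf algebra `H` such that `H_par` is not semisimple. -/
theorem result (k : Type) [Field k] [CharP k 2] :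
    ∃ (H : Type) (_ : CommRing H) (_ : HopfAlgebra k H),
      Module.Finite k H ∧ IsSemisimpleRing H ∧ ¬ IsSemisimpleRing (Hpar k H) := by
  refine ⟨Fn k P5, inferInstance, inferInstance, ?_, ?_, main k⟩
  · exact inferInstanceAs (Module.Finite k (P5 → k))
  · exact inferInstanceAs (IsSemisimpleRing (P5 → k))

end Pool.Agent.Results.MP_57c94c_al.ParNotSemisimple
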